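import Pool.Agent.Helper60.L1Full.Stmts

/-! Hahn-Banach with real parts. -/

namespace DualL1

open scoped ENNReal

theorem st_HB.{u, v, w} : ST_HB.{u, v, w} := by
  classical
  intro 𝕜 _ I Y _ _ δ y hδ hy hlow
  let _ : NormedSpace ℝ Y := NormedSpace.restrictScalars ℝ 𝕜 Y
  have : IsScalarTower ℝ 𝕜 Y := inferInstance
  refine ⟨δ⁻¹, y, hy, fun θ => ?_⟩
  set s : I → ℝ := fun i => if θ i = true then 1 else -1 with hs
  have hs1 : ∀ i, |s i| = 1 := by
    intro i
    simp only [hs]
    split_ifs <;> simp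
  -- the real linear map
  let L : (I →₀ ℝ) →ₗ[ℝ] Y := Finsupp.linearCombination ℝ y
  have hL : ∀ a : I →₀ ℝ, L a = ∑ i ∈ a.support, ((a i : ℝ) : 𝕜) • y i := by
    intro a
    show Finsupp.linearCombination ℝ y a = _
    rw [Finsupp.linearCombination_apply, Finsupp.sum]
    refine Finset.sum_congr rfl fun i _ => ?_
    rw [RCLike.real_smul_eq_coe_smul (K := 𝕜)]
  have hbound : ∀ a : I →₀ ℝ, δ * ∑ i ∈ a.support, |a i| ≤ ‖L a‖ := by
    intro a
    rw [hL]
    exact hlow a.support a
  have hinj : Function.Injective L := by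
    rw [injective_iff_map_eq_zero]
    intro a ha
    have h1 := hbound a
    rw [ha, norm_zero] at h1
    have h2 : ∑ i ∈ a.support, |a i| ≤ 0 := by
      by_contra hcon
      push Not at hcon
      have := mul_pos hδ hcon
      linarith
    ext i
    by_cases hi : i ∈ a.support
    · have h3 : |a i| ≤ ∑ i ∈ a.support, |a i| :=
        Finset.single_le_sum (f := fun i => |a i|) (fun i _ => abs_nonneg _) hi
      have h4 : |a i| ≤ 0 := h3.trans h2
      simpa using h4
    · simpa using hi
  let e := LinearEquiv.ofInjective L hinj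
  let G : (I →₀ ℝ) →ₗ[ℝ] ℝ := Finsupp.linearCombination ℝ s
  have hG : ∀ a : I →₀ ℝ, |G a| ≤ ∑ i ∈ a.support, |a i| := by
    intro a
    show |Finsupp.linearCombination ℝ s a| ≤ _
    rw [Finsupp.linearCombination_apply, Finsupp.sum]
    refine (Finset.abs_sum_le_sum_abs _ _).trans (Finset.sum_le_sum fun i _ => ?_)
    rw [smul_eq_mul, abs_mul, hs1, mul_one]
  let g : (LinearMap.range L) →L[ℝ] ℝ :=
    LinearMap.mkContinuous (G ∘ₗ e.symm.toLinearMap) δ⁻¹ (fun x => by
      have h1 := hG (e.symm x)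
      have h2 := hbound (e.symm x)
      have h3 : L (e.symm x) = (x : Y) := by
        have := e.apply_symm_apply x
        exact congrArg Subtype.val this
      rw [h3] at h2
      show ‖G (e.symm x)‖ ≤ δ⁻¹ * ‖x‖
      rw [Real.norm_eq_abs]
      refine h1.trans ?_
      rw [le_inv_mul_iff₀ hδ]
      exact h2)
  have hgnorm : ‖g‖ ≤ δ⁻¹ := LinearMap.mkContinuous_norm_le _ (inv_nonneg.mpr hδ.le) _
  obtain ⟨φ, hφ, hφn⟩ := exists_extension_norm_eq (LinearMap.range L) g
  refine ⟨StrongDual.extendRCLike (𝕜 := 𝕜) φ, ?_, fun i => ?_⟩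
  · rw [StrongDual.norm_extendRCLike, hφn]
    exact hgnorm
  · rw [StrongDual.re_extendRCLike_apply]
    have h1 : L (Finsupp.single i 1) = y i := by
      show Finsupp.linearCombination ℝ y (Finsupp.single i 1) = _
      rw [Finsupp.linearCombination_single, one_smul]
    have h2 := hφ (e (Finsupp.single i 1))
    have h3 : ((e (Finsupp.single i 1) : LinearMap.range L) : Y) = y i := by
      rw [← h1]; rfl
    rw [h3] at h2
    rw [h2]
    show G (e.symm (e (Finsupp.single i 1))) = _
    rw [e.symm_apply_apply]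
    show Finsupp.linearCombination ℝ s (Finsupp.single i 1) = _
    rw [Finsupp.linearCombination_single, one_smul]

end DualL1
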