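import Pool.Agent.Helper16.L1F.SUMB

/-! Pełczyński's decomposition method for `ℓ¹`-sums. -/

namespace DualL1

open scoped ENNReal

section pel
variable {𝕜 : Type*} [RCLike 𝕜]

/-- `ℓ¹(ℕ; A)` -/
abbrev PEL_l (A : Type*) [NormedAddCommGroup A] := lp (fun _ : ℕ => A) 1

variable {A B : Type*} [NormedAddCommGroup A] [NormedSpace 𝕜 A] [NormedAddCommGroup B]
  [NormedSpace 𝕜 B]

lemma PEL_map_bound (T : A →L[𝕜] B) (x : PEL_l A) :
    Summable (fun n => ‖LinearMap.pi (fun n => T.toLinearMap ∘ₗ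
      lp.evalₗ (𝕜 := 𝕜) (fun _ : ℕ => A) 1 n) x n‖) ∧
      ∑' n, ‖LinearMap.pi (fun n => T.toLinearMap ∘ₗ
        lp.evalₗ (𝕜 := 𝕜) (fun _ : ℕ => A) 1 n) x n‖ ≤ ‖T‖ * ‖x‖ := by
  have hle : ∀ n, ‖LinearMap.pi (fun n => T.toLinearMap ∘ₗ
      lp.evalₗ (𝕜 := 𝕜) (fun _ : ℕ => A) 1 n) x n‖ ≤ ‖T‖ * ‖x n‖ := fun n => T.le_opNorm (x n)
  have hs : Summable (fun n => ‖T‖ * ‖x n‖) := (SUMB_summable x).mul_left _
  have h1 := Summable.of_nonneg_of_le (fun n => norm_nonneg _) hle hs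
  refine ⟨h1, ?_⟩
  rw [SUMB_norm, ← tsum_mul_left]
  exact Summable.tsum_le_tsum hle h1 hs

/-- `ℓ¹(T)` -/
noncomputable def PEL_map (T : A →L[𝕜] B) : PEL_l A →L[𝕜] PEL_l B :=
  SUMB_mk _ ‖T‖ (PEL_map_bound T)

lemma PEL_map_apply (T : A →L[𝕜] B) (x : PEL_l A) (n : ℕ) : (PEL_map T x) n = T (x n) := rfl

lemma PEL_congr (h : Nonempty (A ≃L[𝕜] B)) : Nonempty (PEL_l A ≃L[𝕜] PEL_l B) := by
  obtain ⟨e⟩ := h
  refine ⟨ContinuousLinearEquiv.equivOfInverse (PEL_map (e : A →L[𝕜] B))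
    (PEL_map (e.symm : B →L[𝕜] A)) ?_ ?_⟩
  · intro x
    apply lp.ext
    funext n
    rw [PEL_map_apply, PEL_map_apply]
    exact e.symm_apply_apply (x n)
  · intro x
    apply lp.ext
    funext n
    rw [PEL_map_apply, PEL_map_apply]
    exact e.apply_symm_apply (x n)

lemma PEL_prod : Nonempty (PEL_l (A × B) ≃L[𝕜] (PEL_l A × PEL_l B)) := by
  let F : PEL_l (A × B) →L[𝕜] (PEL_l A × PEL_l B) :=
    (PEL_map (ContinuousLinearMap.fst 𝕜 A B)).prod (PEL_map (ContinuousLinearMap.snd 𝕜 A B))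
  let G : (PEL_l A × PEL_l B) →L[𝕜] PEL_l (A × B) :=
    (PEL_map (ContinuousLinearMap.inl 𝕜 A B)).comp (ContinuousLinearMap.fst 𝕜 _ _) +
    (PEL_map (ContinuousLinearMap.inr 𝕜 A B)).comp (ContinuousLinearMap.snd 𝕜 _ _)
  have hG : ∀ z n, (G z) n = (z.1 n, z.2 n) := by
    intro z n
    have : (G z) n = (z.1 n, (0 : B)) + ((0 : A), z.2 n) := rfl
    rw [this, Prod.mk_add_mk, add_zero, zero_add]
  refine ⟨ContinuousLinearEquiv.equivOfInverse F G ?_ ?_⟩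
  · intro x
    apply lp.ext
    funext n
    rw [hG]
    rfl
  · intro z
    refine Prod.ext ?_ ?_
    · apply lp.ext
      funext n
      show ((G z) n).1 = z.1 n
      rw [hG]
    · apply lp.ext
      funext n
      show ((G z) n).2 = z.2 n
      rw [hG]

variable (𝕜 A) in
lemma PEL_succ : Nonempty (PEL_l A ≃L[𝕜] (A × PEL_l A)) := by
  have hshift : ∀ x : PEL_l A,
      Summable (fun n => ‖LinearMap.pi (fun n =>
        lp.evalₗ (𝕜 := 𝕜) (fun _ : ℕ => A) 1 (n + 1)) x n‖) ∧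
      ∑' n, ‖LinearMap.pi (fun n =>
        lp.evalₗ (𝕜 := 𝕜) (fun _ : ℕ => A) 1 (n + 1)) x n‖ ≤ 1 * ‖x‖ := by
    intro x
    have hi : Function.Injective (fun n : ℕ => n + 1) := fun a b h => by simpa using h
    have h1 : Summable (fun n : ℕ => ‖x (n + 1)‖) := (SUMB_summable x).comp_injective hi
    refine ⟨h1, ?_⟩
    rw [one_mul, SUMB_norm]
    exact tsum_comp_le_tsum_of_inj (SUMB_summable x) (fun j => norm_nonneg _) hi
  let F : PEL_l A →L[𝕜] (A × PEL_l A) :=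
    (lp.evalCLM 𝕜 (fun _ : ℕ => A) 1 0).prod (SUMB_mk _ 1 hshift)
  let L : (A × PEL_l A) →ₗ[𝕜] (ℕ → A) := LinearMap.pi (fun n => Nat.casesOn n
    (LinearMap.fst 𝕜 _ _) (fun m => lp.evalₗ (𝕜 := 𝕜) (fun _ : ℕ => A) 1 m ∘ₗ
      LinearMap.snd 𝕜 _ _))
  have hL0 : ∀ z, L z 0 = z.1 := fun z => rfl
  have hL1 : ∀ z n, L z (n + 1) = z.2 n := fun z n => rfl
  have hL : ∀ z, Summable (fun n => ‖L z n‖) ∧ ∑' n, ‖L z n‖ ≤ 2 * ‖z‖ := by
    intro z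
    have h1 : HasSum (fun n => ‖L z (n + 1)‖) ‖z.2‖ := by
      simp only [hL1]
      rw [SUMB_norm]
      exact (SUMB_summable z.2).hasSum
    have h2 : HasSum (fun n => ‖L z n‖) (‖z.2‖ + ‖z.1‖) := by
      have := (hasSum_nat_add_iff (f := fun n => ‖L z n‖) 1).1 h1
      simpa [hL0] using this
    refine ⟨h2.summable, ?_⟩
    rw [h2.tsum_eq]
    have h4 := norm_fst_le z
    have h5 := norm_snd_le z
    linarith
  refine ⟨ContinuousLinearEquiv.equivOfInverse F (SUMB_mk L 2 hL) ?_ ?_⟩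
  · intro x
    apply lp.ext
    funext n
    rw [SUMB_mk_apply]
    cases n with
    | zero => rfl
    | succ n => rfl
  · intro z
    refine Prod.ext ?_ ?_
    · rfl
    · apply lp.ext
      funext n
      rfl

/-- complement of a complemented subspace -/
lemma PEL_compl {X Z : Type*} [NormedAddCommGroup X] [NormedSpace 𝕜 X] [NormedAddCommGroup Z]
    [NormedSpace 𝕜 Z] (h : Compl1 𝕜 X Z) :
    ∃ W : Submodule 𝕜 Z, Nonempty (Z ≃L[𝕜] (X × W)) := by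
  obtain ⟨T, S, -, -, hST⟩ := h
  exact ⟨_, ⟨ContinuousLinearEquiv.equivOfRightInverse S T hST⟩⟩

end pel

theorem st_PEL.{v, w, x} : ST_PEL.{v, w, x} := by
  intro 𝕜 _ X Z _ _ _ _ _ _ hXZ hZX hZ
  obtain ⟨W, ⟨eW⟩⟩ := PEL_compl hXZ
  obtain ⟨V, ⟨eV⟩⟩ := PEL_compl hZX
  obtain ⟨eZ⟩ := hZ
  -- Z ≃ X × Z
  obtain ⟨a1⟩ := PEL_congr ⟨eW⟩
  obtain ⟨a2⟩ := PEL_prod (𝕜 := 𝕜) (A := X) (B := W)
  obtain ⟨a3⟩ := PEL_succ 𝕜 X
  have e1 : Z ≃L[𝕜] (X × Z) :=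
    (eZ.trans (a1.trans a2)).trans
      (((a3.prodCongr (ContinuousLinearEquiv.refl 𝕜 (PEL_l W))).trans
        (ContinuousLinearEquiv.prodAssoc 𝕜 X (PEL_l X) (PEL_l W))).trans
        ((ContinuousLinearEquiv.refl 𝕜 X).prodCongr ((a1.trans a2).symm.trans eZ.symm)))
  obtain ⟨b⟩ := PEL_succ 𝕜 Z
  have e2 : Z ≃L[𝕜] (Z × Z) :=
    (eZ.trans b).trans ((ContinuousLinearEquiv.refl 𝕜 Z).prodCongr eZ.symm)
  have e3 : X ≃L[𝕜] (Z × X) :=
    (eV.trans (e2.prodCongr (ContinuousLinearEquiv.refl 𝕜 V))).trans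
      ((ContinuousLinearEquiv.prodAssoc 𝕜 Z Z V).trans
        ((ContinuousLinearEquiv.refl 𝕜 Z).prodCongr eV.symm))
  exact ⟨(e3.trans (ContinuousLinearEquiv.prodComm 𝕜 Z X)).trans e1.symm⟩

end DualL1
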