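import Pool.Agent.Helper60.L1Full.Stmts

/-! Complemented subspaces of `ℓ¹`-sums; splitting of the index set. -/

namespace DualL1

open scoped ENNReal

section base
variable {𝕜 : Type*} [RCLike 𝕜] {J : Type*} {E : J → Type*} [∀ j, NormedAddCommGroup (E j)]

lemma SUMB_summable (x : lp E 1) : Summable (fun j => ‖x j‖) := by
  have := (lp.memℓp x).summable (by simp)
  simpa using this

lemma SUMB_mem {x : ∀ j, E j} (h : Summable fun j => ‖x j‖) : Memℓp x 1 :=
  memℓp_gen (by simpa using h)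

lemma SUMB_norm (x : lp E 1) : ‖x‖ = ∑' j, ‖x j‖ := by
  rw [lp.norm_eq_tsum_rpow (by simp)]
  simp

variable [∀ j, NormedSpace 𝕜 (E j)] {X : Type*} [NormedAddCommGroup X] [NormedSpace 𝕜 X]

/-- a bounded linear map into an `ℓ¹`-sum from its coordinates -/
noncomputable def SUMB_mk (L : X →ₗ[𝕜] (∀ j, E j)) (C : ℝ)
    (h : ∀ x, Summable (fun j => ‖L x j‖) ∧ ∑' j, ‖L x j‖ ≤ C * ‖x‖) : X →L[𝕜] lp E 1 :=
  LinearMap.mkContinuous
    { toFun := fun x => (⟨L x, SUMB_mem (h x).1⟩ : lp E 1)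
      map_add' := fun x y => by
        apply lp.ext
        rw [lp.coeFn_add]
        exact L.map_add x y
      map_smul' := fun c x => by
        apply lp.ext
        rw [lp.coeFn_smul]
        exact L.map_smul c x } C (fun x => by
      rw [SUMB_norm]
      exact (h x).2)

lemma SUMB_mk_apply (L : X →ₗ[𝕜] (∀ j, E j)) (C : ℝ)
    (h : ∀ x, Summable (fun j => ‖L x j‖) ∧ ∑' j, ‖L x j‖ ≤ C * ‖x‖) (x : X) (j : J) :
    (SUMB_mk L C h x) j = L x j := rfl

lemma SUMB_mk_norm (L : X →ₗ[𝕜] (∀ j, E j)) (C : ℝ)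
    (h : ∀ x, Summable (fun j => ‖L x j‖) ∧ ∑' j, ‖L x j‖ ≤ C * ‖x‖) (hC : 0 ≤ C) :
    ‖SUMB_mk L C h‖ ≤ C := LinearMap.mkContinuous_norm_le _ hC _

end base

section sum5
variable {𝕜 : Type*} [RCLike 𝕜] {P J : Type*} {E : P → Type*} [∀ p, NormedAddCommGroup (E p)]
  [∀ p, NormedSpace 𝕜 (E p)] {F : J → Type*} [∀ j, NormedAddCommGroup (F j)]
  [∀ j, NormedSpace 𝕜 (F j)]

open Classical in
/-- coordinates of the embedding -/
noncomputable def SUMB_coord (f : P → J) (T : ∀ p, E p →L[𝕜] F (f p)) (j : J) :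
    lp E 1 →ₗ[𝕜] F j :=
  if h : ∃ p, f p = j then
    h.choose_spec ▸ ((T h.choose).toLinearMap ∘ₗ lp.evalₗ E 1 h.choose) else 0

lemma SUMB_coord_apply {f : P → J} (hf : Function.Injective f) (T : ∀ p, E p →L[𝕜] F (f p))
    (p : P) (x : lp E 1) : SUMB_coord f T (f p) x = T p (x p) := by
  have key : ∀ (q : P) (hq : f q = f p),
      ((hq ▸ ((T q).toLinearMap ∘ₗ lp.evalₗ E 1 q) : lp E 1 →ₗ[𝕜] F (f p))) =
        (T p).toLinearMap ∘ₗ lp.evalₗ E 1 p := by
    intro q hq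
    obtain rfl := hf hq
    rfl
  unfold SUMB_coord
  rw [dif_pos ⟨p, rfl⟩, key]
  rfl

lemma SUMB_coord_zero {f : P → J} (T : ∀ p, E p →L[𝕜] F (f p)) {j : J}
    (hj : j ∉ Set.range f) (x : lp E 1) : SUMB_coord f T j x = 0 := by
  unfold SUMB_coord
  rw [dif_neg (by simpa using hj)]
  rfl

theorem st_SUM5.{u, u', v, w, w'} : ST_SUM5.{u, u', v, w, w'} := by
  intro 𝕜 _ P J E _ _ F _ _ f hf hc
  choose T S hT hS hST using hc
  -- the embedding
  have h1 : ∀ x : lp E 1, HasSum (fun j => ‖LinearMap.pi (SUMB_coord f T) x j‖)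
      (∑' p, ‖T p (x p)‖) := by
    intro x
    have hs : Summable (fun p => ‖T p (x p)‖) := by
      refine Summable.of_nonneg_of_le (fun p => norm_nonneg _) (fun p => ?_) (SUMB_summable x)
      exact ((T p).le_of_opNorm_le (hT p) (x p)).trans (by rw [one_mul])
    have h2 : HasSum ((fun j => ‖LinearMap.pi (SUMB_coord f T) x j‖) ∘ f)
        (∑' p, ‖T p (x p)‖) := by
      have : ((fun j => ‖LinearMap.pi (SUMB_coord f T) x j‖) ∘ f) =
          fun p => ‖T p (x p)‖ := by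
        funext p
        simp only [Function.comp, LinearMap.pi_apply]
        rw [SUMB_coord_apply hf T p x]
      rw [this]
      exact hs.hasSum
    refine (hf.hasSum_iff ?_).1 h2
    intro j hj
    simp only [LinearMap.pi_apply]
    rw [SUMB_coord_zero T hj x, norm_zero]
  have hTb : ∀ x : lp E 1, Summable (fun j => ‖LinearMap.pi (SUMB_coord f T) x j‖) ∧
      ∑' j, ‖LinearMap.pi (SUMB_coord f T) x j‖ ≤ 1 * ‖x‖ := by
    intro x
    refine ⟨(h1 x).summable, ?_⟩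
    rw [(h1 x).tsum_eq, one_mul, SUMB_norm]
    have hle : ∀ p, ‖T p (x p)‖ ≤ ‖x p‖ := fun p =>
      ((T p).le_of_opNorm_le (hT p) (x p)).trans (by rw [one_mul])
    exact Summable.tsum_le_tsum hle
      (Summable.of_nonneg_of_le (fun p => norm_nonneg _) hle (SUMB_summable x)) (SUMB_summable x)
  -- the projection
  have hSb : ∀ y : lp F 1, Summable (fun p => ‖LinearMap.pi
        (fun p => (S p).toLinearMap ∘ₗ lp.evalₗ F 1 (f p)) y p‖) ∧
      ∑' p, ‖LinearMap.pi (fun p => (S p).toLinearMap ∘ₗ lp.evalₗ F 1 (f p)) y p‖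
        ≤ 1 * ‖y‖ := by
    intro y
    have hle : ∀ p, ‖LinearMap.pi
        (fun p => (S p).toLinearMap ∘ₗ lp.evalₗ F 1 (f p)) y p‖ ≤ ‖y (f p)‖ := fun p =>
      ((S p).le_of_opNorm_le (hS p) (y (f p))).trans (by rw [one_mul])
    have hsy : Summable (fun p => ‖y (f p)‖) := (SUMB_summable y).comp_injective hf
    refine ⟨Summable.of_nonneg_of_le (fun p => norm_nonneg _) hle hsy, ?_⟩
    rw [one_mul, SUMB_norm]
    refine (Summable.tsum_le_tsum hle
      (Summable.of_nonneg_of_le (fun p => norm_nonneg _) hle hsy) hsy).trans ?_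
    exact tsum_comp_le_tsum_of_inj (SUMB_summable y) (fun j => norm_nonneg _) hf
  refine ⟨SUMB_mk _ 1 hTb, SUMB_mk _ 1 hSb, SUMB_mk_norm _ _ _ zero_le_one,
    SUMB_mk_norm _ _ _ zero_le_one, fun x => ?_⟩
  apply lp.ext
  funext p
  rw [SUMB_mk_apply]
  show S p ((SUMB_mk _ 1 hTb x) (f p)) = x p
  rw [SUMB_mk_apply, LinearMap.pi_apply, SUMB_coord_apply hf T p x, hST]

end sum5

theorem st_SUM6.{u, v, w} : ST_SUM6.{u, v, w} := by
  classical
  intro 𝕜 _ J p E _ _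
  have hres : ∀ (q : J → Prop) (x : lp E 1),
      Summable (fun j : {j // q j} => ‖LinearMap.pi (fun j : {j // q j} => lp.evalₗ (𝕜 := 𝕜) E 1 j.1) x j‖) ∧
      ∑' j : {j // q j}, ‖LinearMap.pi (fun j : {j // q j} => lp.evalₗ (𝕜 := 𝕜) E 1 j.1) x j‖
        ≤ 1 * ‖x‖ := by
    intro q x
    have h1 : Summable (fun j : {j // q j} => ‖x j.1‖) :=
      (SUMB_summable x).comp_injective Subtype.val_injective
    refine ⟨h1, ?_⟩
    rw [one_mul, SUMB_norm]
    exact tsum_comp_le_tsum_of_inj (SUMB_summable x) (fun j => norm_nonneg _)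
      Subtype.val_injective
  let A : lp E 1 →L[𝕜] (lp (fun j : {j // p j} => E j) 1 × lp (fun j : {j // ¬ p j} => E j) 1) :=
    (SUMB_mk _ 1 (hres p)).prod (SUMB_mk _ 1 (hres (fun j => ¬ p j)))
  let L : (lp (fun j : {j // p j} => E j) 1 × lp (fun j : {j // ¬ p j} => E j) 1) →ₗ[𝕜]
      (∀ j, E j) := LinearMap.pi (fun j => if h : p j then
        lp.evalₗ (fun j : {j // p j} => E j) 1 ⟨j, h⟩ ∘ₗ LinearMap.fst 𝕜 _ _ else
        lp.evalₗ (fun j : {j // ¬ p j} => E j) 1 ⟨j, h⟩ ∘ₗ LinearMap.snd 𝕜 _ _)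
  have hLp : ∀ z (j : J) (h : p j), L z j = z.1 ⟨j, h⟩ := by
    intro z j h
    simp only [L, LinearMap.pi_apply, dif_pos h]
    rfl
  have hLn : ∀ z (j : J) (h : ¬ p j), L z j = z.2 ⟨j, h⟩ := by
    intro z j h
    simp only [L, LinearMap.pi_apply, dif_neg h]
    rfl
  have hL : ∀ z, Summable (fun j => ‖L z j‖) ∧ ∑' j, ‖L z j‖ ≤ 2 * ‖z‖ := by
    intro z
    have h1 : HasSum (fun j : {j // p j} => ‖L z j.1‖) ‖z.1‖ := by
      rw [SUMB_norm]
      have : (fun j : {j // p j} => ‖L z j.1‖) = fun j => ‖z.1 j‖ := by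
        funext j
        rw [hLp z j.1 j.2]
      rw [this]
      exact (SUMB_summable z.1).hasSum
    have h2 : HasSum (fun j : {j // ¬ p j} => ‖L z j.1‖) ‖z.2‖ := by
      rw [SUMB_norm]
      have : (fun j : {j // ¬ p j} => ‖L z j.1‖) = fun j => ‖z.2 j‖ := by
        funext j
        rw [hLn z j.1 j.2]
      rw [this]
      exact (SUMB_summable z.2).hasSum
    have h3 : HasSum (fun j => ‖L z j‖) (‖z.1‖ + ‖z.2‖) :=
      HasSum.add_compl (s := {j | p j}) h1 h2
    refine ⟨h3.summable, ?_⟩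
    rw [h3.tsum_eq]
    have h4 := norm_fst_le z
    have h5 := norm_snd_le z
    linarith
  refine ⟨ContinuousLinearEquiv.equivOfInverse A (SUMB_mk L 2 hL) ?_ ?_⟩
  · intro x
    apply lp.ext
    funext j
    rw [SUMB_mk_apply]
    by_cases h : p j
    · rw [hLp _ j h]; rfl
    · rw [hLn _ j h]; rfl
  · intro z
    refine Prod.ext ?_ ?_
    · apply lp.ext
      funext j
      show (SUMB_mk L 2 hL z) j.1 = z.1 j
      rw [SUMB_mk_apply, hLp _ j.1 j.2]
    · apply lp.ext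
      funext j
      show (SUMB_mk L 2 hL z) j.1 = z.2 j
      rw [SUMB_mk_apply, hLn _ j.1 j.2]

end DualL1
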